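import Mathlib
import Pool.Agent.H239R2.Cover.IntFlow

set_option autoImplicit false

/-!
If every partition of the vertex set into `p` classes has at least `(k / (k - 2)) (p - 1)`
crossing edges, then the multigraph has a nowhere-zero `k`-flow.
-/

namespace Pool.Agent.Results.MP_c8786f_co.PartitionFlows

open Pool.Agent.H239R2.Cover (exists_circ_flow int_flow_of_circ_flow bdry bdry_apply)

open Classical in
/-- For every integer `k ≥ 3`, every finite multigraph in which every partition of the vertex set
into `p` classes has at least `(k / (k - 2)) (p - 1)` edges joining different classes has a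
nowhere-zero `k`-flow. -/
theorem result :
    ∀ k : ℕ, 3 ≤ k → ∀ (V E : Type) [Fintype V] [Fintype E] (src dst : E → V),
      (∀ (p : ℕ) (π : V → Fin p), Function.Surjective π →
        (k : ℤ) * (p - 1) ≤ (k - 2) * Nat.card {e : E // π (src e) ≠ π (dst e)}) →
      ∃ f : E → ℤ,
        (∀ e : E, 1 ≤ |f e| ∧ |f e| ≤ k - 1) ∧
        ∀ v : V, ∑ e : E, (if src e = v then f e else 0) = ∑ e : E, (if dst e = v then f e else 0)
    := by
  intro k hk V E _ _ src dst hpart
  obtain ⟨f, hf, hf0⟩ := exists_circ_flow src dst k (k - 2) (by omega) (by omega) (by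
    intro p π hπ
    have h1 := hpart p π hπ
    rw [Nat.card_eq_fintype_card, Fintype.card_subtype] at h1
    zify [show 2 ≤ k by omega]
    convert (show (k : ℤ) * p ≤ (k - 2) * ((Finset.univ.filter
      (fun e => π (src e) ≠ π (dst e))).card : ℤ) + k by linarith) using 3)
  have hkR : (2:ℝ) ≤ k := by exact_mod_cast (by omega : 2 ≤ k)
  obtain ⟨h, hh, hh0⟩ := int_flow_of_circ_flow src dst ((k : ℤ) - 1) f (by
    intro e
    refine ⟨(hf e).1, (hf e).2.trans (le_of_eq ?_)⟩
    rw [Nat.cast_sub (by omega)]
    push_cast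
    field_simp
    ring) hf0
  refine ⟨h, hh, fun v => ?_⟩
  have h1 := congrFun hh0 v
  rw [bdry_apply, Pi.zero_apply] at h1
  rw [← sub_eq_zero, ← Finset.sum_sub_distrib]
  refine Eq.trans (Finset.sum_congr rfl fun e _ => ?_) h1
  by_cases h2 : src e = v <;> by_cases h3 : dst e = v <;> simp [h2, h3]

end Pool.Agent.Results.MP_c8786f_co.PartitionFlows
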